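import Pool.Agent.H877R3.DR.Final

/-!
# `DAGREACH⁻¹(P) ⊆ NC` holds if and only if `P ⊆ NC`

Polynomial time is Mathlib's `Turing.TM2ComputableInPolyTime` (through `InP`, `InPP`); `NC` is
defined by logspace-uniform circuits of fan-in two.
-/

namespace Pool.Agent.Results.MP_ef6eae_lc.IffPEqNC

open Pool.Agent.NPC Pool.Agent.H877R3.DR

theorem result :
    (∀ (k : ℕ) (L : Set (List (Fin k))), DagReachInP L → InNC (binary L)) ↔
      ∀ A : Set (List Bool), InP A → InNC A := main

end Pool.Agent.Results.MP_ef6eae_lc.IffPEqNC
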